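import Pool.Agent.Lib.MP_b5021c_nt.IfaceKV
import Pool.Agent.Lib.MP_b5021c_nt.KE.H96.Step
import Pool.Agent.Lib.MP_b5021c_nt.E.H66.Wn2
import Pool.Agent.Lib.MP_b5021c_nt.DCM.H61.Avg

/-!
# MP_b5021c_nt, all `θ`, K EVEN without levels: the end (row KV_END)
-/

namespace Pool.Agent.B5.KV.H4

open scoped LaurentPolynomial
open Polynomial
open Pool.Agent.B5.KE
open Pool.Agent.B5.Nr.Sch

section

variable {P : Type} [Fintype P] [DecidableEq P] {L : Type} [AddCommGroup L] [Module.Free ℤ L]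
  [Module.Finite ℤ L] {phi : L →+ (P → ℤ)} {G : AO ℤ L} {T : L} {eta u : (RO ℤ)ˣ}
  {q f E : ℤ[X]} {a : ℝ} {j : ℕ}

/-- On the circle `|(1 + z) f| ≤ |E|`. -/
theorem kg_circle (hE2 : E2S) (k : Kg phi G T eta u q f E a j) (z : ℂ) (hz : ‖z‖ = 1) :
    ‖(aeval z ((1 + X) * f) : ℂ)‖ ≤ ‖(aeval z E : ℂ)‖ := by
  have hfr := k.fr
  have hj := k.j2
  obtain ⟨-, -, -, -, -, eray⟩ := hE2 ℤ P L phi G k.dd (by omega)
  obtain ⟨zc, rfl⟩ := circle_of z hz
  have h2 := (eray T k.ray).1 zc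
  have hu : ‖evR zc (u : RO ℤ)‖ = 1 := H36.norm_evR_unit zc _ u.isUnit
  have he : ‖evR zc (eta : RO ℤ)‖ = 1 := H36.norm_evR_unit zc _ eta.isUnit
  have h3 : ‖evR zc (G.coeff 0)‖ = ‖(aeval (zc : ℂ) E : ℂ)‖ := by
    have h4 := congrArg (fun x => ‖evR zc x‖) k.g0
    simp only [map_mul, norm_mul, hu, one_mul] at h4
    rw [h4, evR_poly]
  have h5 : ‖evR zc (G.coeff T)‖ = ‖(aeval (zc : ℂ) ((1 + X) * f) : ℂ)‖ := by
    have h4 := congrArg (fun x => ‖evR zc x‖) k.gT
    simp only [map_mul, norm_mul, hu, he, one_mul, map_neg, norm_neg] at h4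
    rw [h4, ← norm_mul, ← map_mul, ← map_mul, evR_poly]
  rw [← h3, ← h5]
  exact h2

/-- The closing is in class `V(j - 1)`. -/
theorem kg_classV (hE2 : E2S) (k : Kg phi G T eta u q f E a j) :
    ClassV ((j - 1 : ℕ) : ℝ) (G.coeff 0 + (eta : RO ℤ) * G.coeff T) := by
  have hj := k.j2
  have hsp : SP (((1 + X) * f).map (Int.castRingHom ℝ)) (E.map (Int.castRingHom ℝ)) := by
    apply SP.of_circle
    · intro z hz
      rw [aeval_map_real]
      exact k.Ez z hz
    · intro z hz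
      rw [aeval_map_real, aeval_map_real]
      exact kg_circle hE2 k z hz
  have hz : ∀ z : ℂ, ‖z‖ < 1 → (aeval z (E - (1 + X) * f) : ℂ) ≠ 0 := by
    intro z hz h0
    have h2 : (aeval z (((1 + X) * f).map (Int.castRingHom ℝ)) : ℂ) =
        aeval z (E.map (Int.castRingHom ℝ)) := by
      rw [aeval_map_real, aeval_map_real]
      rw [map_sub] at h0
      exact (sub_eq_zero.1 h0).symm
    have h3 := sp_eq hsp hz h2
    have h4 := congrArg (fun r : ℝ[X] => r.coeff 0) h3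
    simp only [coeff_map] at h4
    rw [mul_coeff_zero, k.f0, k.E0] at h4
    simp only [coeff_add, coeff_one_zero, coeff_X_zero, add_zero, mul_one] at h4
    have h5 : (1 : ℤ) = j := (RingHom.injective_int (Int.castRingHom ℝ)) h4
    omega
  have h1 : ClassV (((j - 1 : ℕ) : ℤ) : ℝ) (toLaurent (E - (1 + X) * f)) := by
    refine Dcm.classV_poly (by exact_mod_cast (by omega : 1 ≤ j - 1)) ?_ hz
    rw [coeff_sub, mul_coeff_zero, k.f0, k.E0]
    simp only [coeff_add, coeff_one_zero, coeff_X_zero, add_zero, mul_one]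
    rw [abs_of_nonneg (by omega)]
    omega
  have h2 : G.coeff 0 + (eta : RO ℤ) * G.coeff T =
      ((u⁻¹ : (RO ℤ)ˣ) : RO ℤ) * toLaurent (E - (1 + X) * f) := by
    rw [map_sub, ← k.g0, sub_eq_add_neg, ← k.gT, ← mul_add, Units.inv_mul_cancel_left]
  rw [h2]
  have h3 := Dcm.classV_unit u⁻¹ h1
  exact_mod_cast h3

/-- (KV_END) -/
theorem kvz (hE2 : E2S) (hFD : FDS) (hN : KvnS) (hX : KvxS) (hJ : KvjS) (hU : UfxS) (hY : KvyS) :
    KvzS := by
  intro P L _ _ _ _ _ phi G T eta u q f E a j k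
  rcases Nat.lt_or_ge j 3 with h3 | h3
  · obtain rfl : j = 2 := by
      have := k.j2
      omega
    exact hJ P L phi G T eta u q f E a k
  have hfr := k.fr
  -- a port of `T`
  obtain ⟨i1, h1⟩ : ∃ i1, co phi i1 T = 1 := exists_port k.dd k.ray
  have hV := kg_classV hE2 k
  have hcc : CC phi G T i1 eta := by
    refine ⟨k.dd, by omega, k.ray, h1, ?_⟩
    intro h0
    obtain ⟨-, n, p, hp, hp0, -⟩ := hV
    rw [h0] at hp
    have h4 : toLaurent p = (0 : RO ℤ) := by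
      have h5 := congrArg (fun x => LaurentPolynomial.T (-n) * x) hp
      simp only [mul_zero, ← mul_assoc, ← LaurentPolynomial.T_add, neg_add_cancel,
        LaurentPolynomial.T_zero, one_mul] at h5
      exact h5.symm
    have h6 : p = 0 := by
      apply toLaurent_injective
      rw [h4, map_zero]
    rw [h6, coeff_zero, map_zero, norm_zero] at hp0
    have h7 : (0 : ℝ) = ((j - 1 : ℕ) : ℝ) := hp0
    have h8 : 0 = j - 1 := by exact_mod_cast h7
    omega
  obtain ⟨c, n, H, fd⟩ := hFD ℤ P L phi G T i1 eta h1 hcc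
  have hbig := hN P L phi G T eta u q f E a j i1 h1 c n H k h3 fd
  have hrk := k.dr i1 h1
  obtain ⟨-, hc, hzf⟩ := hX P L phi G T i1 eta h1 c n H (j - 1) fd k.im (by omega) hV
    (by omega) hbig
  have hz : Zfd phi G T i1 h1 eta c n H :=
    ⟨hc, fd.eq, fd.irr, fd.wd, hbig, hzf, hrk⟩
  have hV0 : ClassV (j : ℝ) (G.coeff 0) := by
    have h5 : ClassV ((j : ℤ) : ℝ) (toLaurent E) := by
      refine Dcm.classV_poly (by exact_mod_cast (by omega : 1 ≤ j)) ?_ (fun z hz => k.Ez z hz.le)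
      rw [k.E0, abs_of_nonneg (by positivity)]
    have h6 := Dcm.classV_unit u⁻¹ h5
    rw [← k.g0, Units.inv_mul_cancel_left] at h6
    exact_mod_cast h6
  have hcon := hU P L phi G T i1 h1 eta c n H j E ((1 + X) * f) u k.dd k.ray hz h3 hV0 k.fr
    (k.ih _ (by omega)) k.g0 k.gT k.E0 (by rw [mul_coeff_zero, k.f0]; simp)
  exact hY q f E a j k.loc h3 k.aj k.lt k.eE k.cusp hcon

end

end Pool.Agent.B5.KV.H4
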